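import Pool.Agent.Lib.T8.Main
import Pool.Agent.Lib.VK.YFin
import Pool.Agent.Lib.VK.TPos

/-!
# The Hardy-Littlewood formula for almost all shapes, every member with a prescribed exact number of prime factors

The shapes are `(h_1, ..., h_m)`, where `h_i` runs over `[1, X]` if `κ_i = 1` and over ANY window `(b_i, b_i + H]` of `[1, X]` if `κ_i ≥ 2`.
For almost all shapes the number of the primes `n` in `(X, 2X]` such that every `n + h_i` has EXACTLY `κ_i` prime factors, the least one in a given set `S_i` of primes (`κ_i = 1`: `n + h_i` prime),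
is asymptotic to the Hardy-Littlewood prediction with its constant, for ALL sets `S_i` of primes between a power of `log X` and `w'`, where `w'` is at most a small power of `X`, which are not extremely thin,
and all windows of length `H ≥ w' (log X)^C` (so `H` may be a power of `log X`); and if `H ≥ exp((log X)^(1-η))`, this holds without any condition on the least prime factors, if the shape is admissible.
-/

set_option autoImplicit false

open Finset Filter Topology

namespace Pool.Agent.Results.MP_092512_nt.ExactTupleFormula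

/-- the number of classes modulo `p` met by `0, h_1, ..., h_m` -/
def nu {m : ℕ} (h : Fin m → ℕ) (p : ℕ) : ℕ := (insert 0 (univ.image fun i => h i % p)).card

/-- the shape `0, h_1, ..., h_m` is admissible: for no prime `p` does it meet all the classes modulo `p` -/
def Adm {m : ℕ} (h : Fin m → ℕ) : Prop := ∀ p : ℕ, p.Prime → nu h p < p

/-- the product over the primes `p ≤ z` of the factors `(1 - ν(p)/p) / (1 - 1/p)^(m+1)` -/
noncomputable def partialSing {m : ℕ} (h : Fin m → ℕ) (z : ℕ) : ℝ :=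
  ∏ p ∈ (Icc 1 z).filter Nat.Prime, (1 - (nu h p : ℝ) / p) / (1 - 1 / (p : ℝ)) ^ (m + 1)

/-- the Hardy-Littlewood constant of the shape `0, h_1, ..., h_m`: the limit of `partialSing h z` for `z → ∞` -/
noncomputable def sing {m : ℕ} (h : Fin m → ℕ) : ℝ := limUnder atTop (partialSing h)

open Classical in
/-- the number of the primes `n` in `(X, 2X]` such that every `n + h_i` is prime (`κ_i = 1`) or has exactly `κ_i` prime factors (counted with multiplicity), the least one
in `S_i` (`κ_i ≠ 1`) -/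
noncomputable def count {m : ℕ} (X : ℕ) (κ : Fin m → ℕ) (S : Fin m → Finset ℕ) (h : Fin m → ℕ) : ℕ :=
  ((Ioc X (2 * X)).filter fun n => n.Prime ∧ ∀ i, if κ i = 1 then (n + h i).Prime else
    (n + h i).primeFactorsList.length = κ i ∧ (n + h i).minFac ∈ S i).card

/-- `∑_{q ∈ S} 1/q · (log (log X / log q))^(k-2) / (k-2)!` -/
noncomputable def dens (k : ℕ) (S : Finset ℕ) (X : ℕ) : ℝ :=
  ∑ q ∈ S, 1 / (q : ℝ) * ((Real.log (Real.log X / Real.log q)) ^ (k - 2) / (Nat.factorial (k - 2) : ℝ))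

/-- the prediction without the constant: `X / (log X)^(m+1)` times the product of the `dens κ_i S_i X` over the `i` with `κ_i ≠ 1` -/
noncomputable def pred {m : ℕ} (X : ℕ) (κ : Fin m → ℕ) (S : Fin m → Finset ℕ) : ℝ :=
  X / (Real.log X) ^ (m + 1) * ∏ i, if κ i = 1 then 1 else dens (κ i) (S i) X

open Classical in
/-- the number of the primes `n` in `(X, 2X]` such that every `n + h_i` has exactly `κ_i` prime factors (counted with multiplicity) -/
noncomputable def countAll {m : ℕ} (X : ℕ) (κ h : Fin m → ℕ) : ℕ :=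
  ((Ioc X (2 * X)).filter fun n => n.Prime ∧ ∀ i, (n + h i).primeFactorsList.length = κ i).card

/-- the full prediction without the constant: `X / (log X)^(m+1)` times the product of the `(log log X)^(κ_i - 1) / (κ_i - 1)!` -/
noncomputable def predAll {m : ℕ} (X : ℕ) (κ : Fin m → ℕ) : ℝ :=
  X / (Real.log X) ^ (m + 1) * ∏ i, (Real.log (Real.log X)) ^ (κ i - 1) / (Nat.factorial (κ i - 1) : ℝ)

/-- the box of the shapes: `1 ≤ h_i ≤ X` for the prime members, `b_i < h_i ≤ b_i + H` for the others -/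
def shapes {m : ℕ} (X H : ℕ) (κ b : Fin m → ℕ) : Finset (Fin m → ℕ) :=
  Fintype.piFinset fun i => if κ i = 1 then Icc 1 X else Ioc (b i) (b i + H)

open Classical in
/-- the shapes without the property `Q` are at most the proportion `(log X)^(-A)` of all the shapes -/
def AlmostAll {m : ℕ} (A X H : ℕ) (κ b : Fin m → ℕ) (Q : (Fin m → ℕ) → Prop) : Prop :=
  (((shapes X H κ b).filter fun h => ¬ Q h).card : ℝ) ≤ (shapes X H κ b).card / (Real.log X) ^ A

private theorem etf_shape {m : ℕ} (X H : ℕ) (κ b : Fin m → ℕ) :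
    shapes X H κ b = Pool.Agent.Lib.VKT.box (fun i => if κ i = 1 then 0 else b i) (fun i => if κ i = 1 then X else H) := by
  unfold shapes Pool.Agent.Lib.VKT.box
  congr 1
  funext i
  by_cases h : κ i = 1
  · simp only [h, if_true]
    ext x
    simp only [mem_Icc, mem_Ioc]
    omega
  · simp only [h]
    simp

private theorem etf_card {m : ℕ} (X H : ℕ) (κ b : Fin m → ℕ) :
    ((shapes X H κ b).card : ℝ) = ∏ i, ((if κ i = 1 then X else H : ℕ) : ℝ) := by
  unfold shapes
  rw [Fintype.card_piFinset]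
  push_cast
  refine prod_congr rfl fun i _ => ?_
  by_cases h : κ i = 1
  · simp [h]
  · simp [h]

private theorem etf_b {m : ℕ} {X H : ℕ} {κ b : Fin m → ℕ} (hb : ∀ i, b i + H ≤ X) :
    ∀ i, (κ i = 1 → (if κ i = 1 then 0 else b i) = 0) ∧ (κ i ≠ 1 → (if κ i = 1 then 0 else b i) + H ≤ X) := by
  intro i
  refine ⟨fun h => by simp [h], fun h => ?_⟩
  simp only [h]
  simpa using hb i

private theorem etf_all {m A X H : ℕ} {κ b : Fin m → ℕ} {Q : (Fin m → ℕ) → Prop} {S : Finset (Fin m → ℕ)}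
    (hS : (S.card : ℝ) ≤ (∏ i, ((if κ i = 1 then X else H : ℕ) : ℝ)) / (Real.log X) ^ A) (hsub : ∀ h ∈ shapes X H κ b, ¬ Q h → h ∈ S) :
    AlmostAll A X H κ b Q := by
  classical
  unfold AlmostAll
  rw [etf_card]
  refine le_trans (Nat.cast_le.2 (card_le_card fun h hh => ?_)) hS
  rw [mem_filter] at hh
  exact hsub h hh.1 hh.2

/-- the constants of the shapes -/
private theorem constants (m : ℕ) : ∃ s : ℝ, 0 < s ∧ ∀ h : Fin m → ℕ, Function.Injective h → (∀ i, 1 ≤ h i) →
      Tendsto (partialSing h) atTop (𝓝 (sing h)) ∧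
        (((∀ p : ℕ, p.Prime → nu h p < p) ∧ s ≤ sing h) ∨ ((∃ p : ℕ, p.Prime ∧ nu h p = p) ∧ sing h = 0)) := by
    obtain ⟨s, hs, hpos⟩ := Pool.Agent.Lib.VKT.pos m
    obtain ⟨C, D', hC, htail⟩ := Pool.Agent.Lib.VKT.tail m
    refine ⟨s, hs, fun h hinj h1 => ⟨?_, ?_⟩⟩
    · obtain ⟨N, hN⟩ : ∃ N : ℕ, 2 ≤ N ∧ ∀ i, h i ≤ N := by
        refine ⟨2 + ∑ i, h i, by omega, fun i => ?_⟩
        have : h i ≤ ∑ i, h i := single_le_sum (fun j _ => Nat.zero_le (h j)) (mem_univ i)
        omega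
      obtain ⟨z, hz⟩ := exists_nat_ge (max 2 (C * Real.log N))
      have hz2 : 2 ≤ z := by
        have : (2 : ℝ) ≤ z := (le_max_left _ _).trans hz
        exact_mod_cast this
      exact (htail z N h hz2 hN.1 hinj (fun i => ⟨h1 i, hN.2 i⟩) ((le_max_right _ _).trans hz)).1
    · by_cases had : ∀ p : ℕ, p.Prime → nu h p < p
      · exact Or.inl ⟨had, hpos h hinj h1 had⟩
      · push Not at had
        obtain ⟨p, hp, hle⟩ := had
        have hle2 : nu h p ≤ p := by
          unfold nu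
          refine (card_le_card (t := range p) ?_).trans (card_range p).le
          intro x hx
          rw [mem_insert, mem_image] at hx
          rw [mem_range]
          rcases hx with hx | ⟨i, -, hx⟩
          · rw [hx]; exact hp.pos
          · rw [← hx]; exact Nat.mod_lt _ hp.pos
        have he : nu h p = p := le_antisymm hle2 hle
        exact Or.inr ⟨⟨p, hp, he⟩, Pool.Agent.Lib.VKT.zero m h hinj h1 hp he⟩


/-- given sets of least prime factors -/
private theorem general (m : ℕ) (κ : Fin m → ℕ) (A B : ℕ) (hκ : ∀ i, 1 ≤ κ i) : ∃ c₀ C : ℕ, ∀ ε : ℝ, 0 < ε → ∃ η : ℝ, 0 < η ∧ ∃ X₀ : ℝ,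
    ∀ X H : ℕ, ∀ b : Fin m → ℕ, X₀ ≤ X → H ≤ X → (∀ i, b i + H ≤ X) → ∀ (w' : ℝ) (S : Fin m → Finset ℕ), 1 ≤ w' → w' ≤ (X : ℝ) ^ η →
      w' * (Real.log X) ^ C ≤ H →
      (∀ i, κ i ≠ 1 → (∀ q ∈ S i, q.Prime ∧ (Real.log X) ^ c₀ ≤ q ∧ (q : ℝ) ≤ w') ∧ 1 / (Real.log X) ^ B ≤ ∑ q ∈ S i, 1 / (q : ℝ)) →
        AlmostAll A X H κ b fun h => Function.Injective h ∧
          |(count X κ S h : ℝ) - sing h * pred X κ S| ≤ ε * (sing h * pred X κ S) := by
  classical
  obtain ⟨c₀, C, hg⟩ := Pool.Agent.Lib.T8.t8 κ hκ A B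
  refine ⟨c₀, C, fun ε hε => ?_⟩
  obtain ⟨η, hη, x0, h1⟩ := hg ε hε
  refine ⟨η, hη, x0, fun X H b hX hHX hb w' S hw1 hw hH hS => ?_⟩
  have hmain := h1 X H w' S hX hw1 hw hH hHX hS _ (etf_b (κ := κ) hb)
  refine etf_all hmain fun h hh hQ => ?_
  rw [etf_shape] at hh
  rw [mem_filter]
  refine ⟨hh, fun hgood => hQ ⟨hgood.1, ?_⟩⟩
  have h2 := hgood.2
  have h3 : sing h * pred X κ S = Pool.Agent.Lib.VKT.HL h * Pool.Agent.Lib.T8.dA κ (fun i => Pool.Agent.Lib.T8.dT (κ i) (S i) X) *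
      (X / (Real.log X) ^ (m + 1)) := by
    unfold pred
    rw [mul_comm ((X : ℝ) / (Real.log X) ^ (m + 1)), ← mul_assoc]
    rfl
  rw [h3]
  exact h2

/-- no condition on the prime factors -/
private theorem full (m : ℕ) (κ : Fin m → ℕ) (A : ℕ) (ε : ℝ) (hκ : ∀ i, 1 ≤ κ i) (hε : 0 < ε) : ∃ η : ℝ, 0 < η ∧ η < 1 ∧
    ∃ X₀ : ℝ, ∀ X H : ℕ, ∀ b : Fin m → ℕ, X₀ ≤ X → Real.exp ((Real.log X) ^ (1 - η)) ≤ H → H ≤ X → (∀ i, b i + H ≤ X) →
      AlmostAll A X H κ b fun h => Function.Injective h ∧ (Adm h →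
        |(countAll X κ h : ℝ) - sing h * predAll X κ| ≤ ε * (sing h * predAll X κ)) := by
  classical
  obtain ⟨η, hη0, hη1, x0, hx0⟩ := Pool.Agent.Lib.VKT.fullK7 κ hκ A ε hε
  refine ⟨η, hη0, hη1, x0, fun X H b hX hH1 hH2 hb => ?_⟩
  have hmain := hx0 X H hX hH1 hH2 _ (etf_b (κ := κ) hb)
  refine etf_all hmain fun h hh hQ => ?_
  rw [etf_shape] at hh
  rw [mem_filter]
  refine ⟨hh, fun hgood => hQ ⟨hgood.1, fun hadm => ?_⟩⟩
  have h1 := hgood.2 hadm
  have h2 : sing h * predAll X κ = Pool.Agent.Lib.VKT.HL h * (X / (Real.log X) ^ (m + 1)) *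
      ∏ i, (Real.log (Real.log X)) ^ (κ i - 1) / (Nat.factorial (κ i - 1) : ℝ) := by
    unfold predAll
    rw [← mul_assoc]
    rfl
  rw [h2]
  exact h1

/-- For distinct `h_1, ..., h_m ≥ 1` the constant `sing h` is the limit of the partial products; it is at least `s > 0` (`s` depends only on `m`) if the shape is admissible, and `0` if not.
For all `κ_i ≥ 1` and `A`, `B` there are `c₀`, `C` such that for all `ε > 0` and all large `X` the two asymptotic formulas hold for all but the proportion `(log X)^(-A)` of the shapes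
in the box: the first for every real `w'` and all sets `S_i` (`κ_i ≠ 1`) of primes in `[(log X)^c₀, w']` with `∑_{q ∈ S_i} 1/q ≥ (log X)^(-B)`, if `1 ≤ w' ≤ X^η` and `w' (log X)^C ≤ H`;
the second, for the admissible shapes, if `exp((log X)^(1-η)) ≤ H`. -/
theorem result (m : ℕ) :
    (∃ s : ℝ, 0 < s ∧ ∀ h : Fin m → ℕ, Function.Injective h → (∀ i, 1 ≤ h i) →
      Tendsto (partialSing h) atTop (𝓝 (sing h)) ∧ (Adm h → s ≤ sing h) ∧ (¬ Adm h → sing h = 0)) ∧
    ∀ (κ : Fin m → ℕ) (A B : ℕ), (∀ i, 1 ≤ κ i) → ∃ c₀ C : ℕ, ∀ ε : ℝ, 0 < ε → ∃ η X₀ : ℝ, 0 < η ∧ η < 1 ∧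
      ∀ (X H : ℕ) (b : Fin m → ℕ), X₀ ≤ X → H ≤ X → (∀ i, b i + H ≤ X) →
        (∀ (w' : ℝ) (S : Fin m → Finset ℕ), 1 ≤ w' → w' ≤ (X : ℝ) ^ η → w' * (Real.log X) ^ C ≤ H →
          (∀ i, κ i ≠ 1 → (∀ q ∈ S i, q.Prime ∧ (Real.log X) ^ c₀ ≤ q ∧ (q : ℝ) ≤ w') ∧ 1 / (Real.log X) ^ B ≤ ∑ q ∈ S i, 1 / (q : ℝ)) →
          AlmostAll A X H κ b fun h => Function.Injective h ∧
            |(count X κ S h : ℝ) - sing h * pred X κ S| ≤ ε * (sing h * pred X κ S)) ∧
        (Real.exp ((Real.log X) ^ (1 - η)) ≤ H →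
          AlmostAll A X H κ b fun h => Function.Injective h ∧ (Adm h →
            |(countAll X κ h : ℝ) - sing h * predAll X κ| ≤ ε * (sing h * predAll X κ))) := by
  refine ⟨?_, fun κ A B hκ => ?_⟩
  · obtain ⟨s, hs, hc⟩ := constants m
    refine ⟨s, hs, fun h hinj h1 => ⟨(hc h hinj h1).1, fun hadm => ?_, fun hadm => ?_⟩⟩
    · rcases (hc h hinj h1).2 with h2 | ⟨⟨p, hp, hnp⟩, -⟩
      · exact h2.2
      · exact absurd (hadm p hp) (by omega)
    · rcases (hc h hinj h1).2 with h2 | h2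
      · exact absurd h2.1 hadm
      · exact h2.2
  · obtain ⟨c₀, C, hgen⟩ := general m κ A B hκ
    refine ⟨c₀, C, fun ε hε => ?_⟩
    obtain ⟨η1, hη1, x1, h1⟩ := hgen ε hε
    obtain ⟨η2, hη2, hη21, x2, h2⟩ := full m κ A ε hκ hε
    refine ⟨min η1 η2, max (max x1 x2) 3, lt_min hη1 hη2, (min_le_right _ _).trans_lt hη21, fun X H b hX hHX hb => ?_⟩
    have hXa : x1 ≤ X := (le_max_left _ _).trans ((le_max_left _ _).trans hX)
    have hXb : x2 ≤ X := (le_max_right _ _).trans ((le_max_left _ _).trans hX)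
    have hX3 : (3 : ℝ) ≤ X := (le_max_right _ _).trans hX
    have hl1 : 1 ≤ Real.log X := by
      rw [Real.le_log_iff_exp_le (by linarith)]
      have := Real.exp_one_lt_d9
      linarith
    refine ⟨fun w' S hw1 hw hH hS => ?_, fun hH => ?_⟩
    · exact h1 X H b hXa hHX hb w' S hw1 (hw.trans (Real.rpow_le_rpow_of_exponent_le (by linarith) (min_le_left _ _))) hH hS
    · refine h2 X H b hXb (le_trans (Real.exp_le_exp.mpr ?_) hH) hHX hb
      exact Real.rpow_le_rpow_of_exponent_le hl1 (by linarith [min_le_right η1 η2])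

end Pool.Agent.Results.MP_092512_nt.ExactTupleFormula
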