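import Pool.Agent.Lib.MP_092512_nt.TT.A.Core
import Pool.Agent.Lib.MP_092512_nt.TT.A.Hand
import Pool.Agent.Lib.MP_092512_nt.OD.Asm
import Pool.Agent.Lib.MP_092512_nt.EV.Fn2

/-!
# No linear relation modulo 2 between the parities of the members of an admissible tuple

For every admissible `k`-tuple of distinct shifts `h l` (for instance the shapes `{0, 2, 6, 8}` and
`{0, 4, 6, 10}` of the problem) and every nonempty set `J` of indices the sum of `Ω (n + h j)` over `J`
takes both parities for at least `x ^ (1 - ε)` integers `n ≤ x` each. More precisely, for all prescribed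
parities `ρ j` the number of exceptions `j ∈ J` can be made even (and zero if `|J| = 2`) while every
member `n + h l` is `s * b`, where `s < C` is bounded and free of primes `≤ w`, and `b` has no prime
factor `≤ (log x) ^ A`; for `l ≠ i`, where `i` is the index of the least shift of `J`, `b` has no prime
factor `≤ x ^ (1 / C)` and `n + h l` has less than `C` prime factors. If `|J|` is `2` or odd, then
`s = 1` and `i` may be any element of `J`; if `|J|` is odd, the last property holds for `l = i` too.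
-/

open Finset

namespace Pool.Agent.Results.MP_092512_nt.ParitySumsOverAllSets

open ArithmeticFunction (cardFactors)

theorem sum_filter_mod {k : ℕ} (J : Finset (Fin k)) (a b : Fin k → ℕ) :
    (∑ j ∈ J, a j + ∑ j ∈ J, b j + (J.filter fun j => a j % 2 ≠ b j % 2).card) % 2 = 0 := by
  classical
  induction J using Finset.induction_on with
  | empty => simp
  | insert j J hj ih =>
    rw [sum_insert hj, sum_insert hj, filter_insert]
    by_cases hc : a j % 2 ≠ b j % 2
    · rw [if_pos hc, card_insert_of_notMem (fun h => hj (mem_filter.1 h).1)]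
      omega
    · rw [if_neg hc]
      omega

open Classical in
theorem result (k : ℕ) (h : Fin k → ℕ) (hinj : Function.Injective h)
    (hadm : ∀ p : ℕ, p.Prime → ∃ r : ℕ, ∀ l, ¬ p ∣ r + h l)
    (J : Finset (Fin k)) (i : Fin k) (hi : i ∈ J)
    (hJ : J.card = 2 ∨ Odd J.card ∨ ∀ j ∈ J, h i ≤ h j)
    (w A : ℕ) (ε : ℝ) (hε : 0 < ε) :
    ∃ C : ℕ, ∃ x₀ : ℕ, ∀ x : ℕ, x₀ ≤ x → ∀ ρ : Fin k → ℕ,
    (x : ℝ) ^ (1 - ε) ≤ (((Icc 1 x).filter fun n =>
      Even (J.filter fun j => cardFactors (n + h j) % 2 ≠ ρ j % 2).card ∧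
      (J.card = 2 → ∀ j ∈ J, cardFactors (n + h j) % 2 = ρ j % 2) ∧
      ∀ l, ∃ s b : ℕ, n + h l = s * b ∧ s < C ∧ (∀ p ∈ s.primeFactors, w < p) ∧
        (J.card = 2 ∨ Odd J.card → s = 1) ∧
        (∀ p ∈ b.primeFactors, Real.log x ^ A < p) ∧
        (l ≠ i ∨ Odd J.card →
          (∀ p ∈ b.primeFactors, (x : ℝ) ^ (1 / (C : ℝ)) < p) ∧ cardFactors (n + h l) < C)).card : ℝ) := by
  classical
  by_cases h2 : J.card = 2
  · obtain ⟨j, hij, hJe⟩ : ∃ j, i ≠ j ∧ J = {i, j} := by
      obtain ⟨a, b, hab, he⟩ := Finset.card_eq_two.1 h2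
      rw [he, mem_insert, mem_singleton] at hi
      rcases hi with rfl | rfl
      · exact ⟨b, hab, he⟩
      · exact ⟨a, hab.symm, by rw [he, Finset.pair_comm]⟩
    have hmin : 0 < min ε 1 := lt_min hε one_pos
    obtain ⟨C, x₀, H⟩ := Pool.Agent.Lib.TTA.hand_of h i j A (min ε 1)
      (Pool.Agent.Lib.TTA.core h hinj hadm i j hij A (min ε 1) hmin (min_le_right _ _))
    have hev : ∀ᶠ x : ℕ in Filter.atTop, Real.log x ^ A ≤ (x : ℝ) ^ (1 / ((max C 1 : ℕ) : ℝ)) := by
      have hc : (0 : ℝ) < 1 / ((max C 1 : ℕ) : ℝ) := by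
        have : (1 : ℝ) ≤ ((max C 1 : ℕ) : ℝ) := by exact_mod_cast le_max_right C 1
        positivity
      have h' := ((isLittleO_log_rpow_rpow_atTop (A : ℝ) hc).bound (zero_lt_one))
      filter_upwards [tendsto_natCast_atTop_atTop.eventually h', Filter.eventually_ge_atTop 1] with x hx hx1
      have hx1R : (1 : ℝ) ≤ x := by exact_mod_cast hx1
      rw [one_mul, Real.norm_of_nonneg (Real.rpow_nonneg (Real.log_nonneg hx1R) _),
        Real.norm_of_nonneg (Real.rpow_nonneg (by linarith) _), Real.rpow_natCast] at hx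
      exact hx
    obtain ⟨x1, hx1⟩ := Filter.eventually_atTop.1 hev
    refine ⟨max C 2, max x₀ (max x1 1), fun x hx ρ => ?_⟩
    rw [max_le_iff, max_le_iff] at hx
    have hx1R : (1 : ℝ) ≤ x := by exact_mod_cast hx.2.2
    refine le_trans (Real.rpow_le_rpow_of_exponent_le hx1R (by linarith [min_le_left ε 1]))
      (le_trans (H x hx.1 (ρ i % 2) (ρ j % 2) (Nat.mod_lt _ two_pos) (Nat.mod_lt _ two_pos)) ?_)
    refine Nat.cast_le.2 (card_le_card fun n hn => ?_)
    rw [mem_filter] at hn ⊢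
    obtain ⟨hn1, hn2, hn3, hn4, hn5⟩ := hn
    have h0 : ∀ l ∈ J, cardFactors (n + h l) % 2 = ρ l % 2 := by
      intro l hl
      rw [hJe, mem_insert, mem_singleton] at hl
      rcases hl with rfl | rfl
      · exact hn2
      · exact hn3
    refine ⟨hn1, ?_, fun _ => h0, fun l => ⟨1, n + h l, (one_mul _).symm, by omega, ?_, fun _ => rfl, ?_, ?_⟩⟩
    · rw [filter_eq_empty_iff.2 fun l hl => not_not.2 (h0 l hl), card_empty]
      exact Even.zero
    · simp
    · by_cases hl : l = i
      · rw [hl]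
        exact hn4
      · intro p hp
        obtain ⟨c1, c2⟩ := hn5 l hl
        have c3 := hx1 x hx.2.1
        rw [max_eq_left (by omega : 1 ≤ C)] at c3
        exact lt_of_le_of_lt c3 (c1 p hp)
    · rintro (hl | hl)
      · obtain ⟨c1, c2⟩ := hn5 l hl
        have hC1 : (0 : ℝ) < C := by exact_mod_cast (by omega : 0 < C)
        refine ⟨fun p hp => lt_of_le_of_lt (Real.rpow_le_rpow_of_exponent_le hx1R ?_) (c1 p hp), lt_of_lt_of_le c2 (le_max_left _ _)⟩
        refine one_div_le_one_div_of_le hC1 ?_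
        exact_mod_cast le_max_left C 2
      · rw [h2] at hl
        exact absurd hl (by decide)
  by_cases h3 : Odd J.card
  · obtain ⟨C, x₀, H⟩ := Pool.Agent.Lib.OD.asm k h hadm J h3 A ε hε
    refine ⟨max C 2, max x₀ 1, fun x hx ρ => (H x ((le_max_left _ _).trans hx) ρ).trans ?_⟩
    have hx1R : (1 : ℝ) ≤ x := by exact_mod_cast (le_max_right _ _).trans hx
    refine Nat.cast_le.2 (card_le_card fun n hn => ?_)
    rw [mem_filter] at hn ⊢
    obtain ⟨hn1, hn2, hn3⟩ := hn
    refine ⟨hn1, hn2.1, fun h' => absurd h' h2, fun l => ⟨1, n + h l, (one_mul _).symm, by omega, ?_, fun _ => rfl, (hn3 l).1, fun _ => ?_⟩⟩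
    · simp
    · obtain ⟨-, c1, c2⟩ := hn3 l
      have hC1 : (0 : ℝ) < C := by exact_mod_cast (by omega : 0 < C)
      refine ⟨fun p hp => lt_of_le_of_lt (Real.rpow_le_rpow_of_exponent_le hx1R ?_) (c1 p hp), lt_of_lt_of_le c2 (le_max_left _ _)⟩
      refine one_div_le_one_div_of_le hC1 ?_
      exact_mod_cast le_max_left C 2
  · have hmin : ∀ j ∈ J, h i ≤ h j := (hJ.resolve_left h2).resolve_left h3
    obtain ⟨C, x₀, H⟩ := Pool.Agent.Lib.EV.even_main2 Pool.Agent.Lib.TTA.gcore k h hinj hadm J (Nat.not_odd_iff_even.1 h3) i hi hmin w A ε hε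
    refine ⟨C, x₀, fun x hx ρ => (H x hx ((∑ j ∈ J, ρ j) % 2) (Nat.mod_lt _ two_pos)).trans ?_⟩
    refine Nat.cast_le.2 (card_le_card fun n hn => ?_)
    rw [mem_filter] at hn ⊢
    obtain ⟨hn1, hn2, hn3⟩ := hn
    refine ⟨hn1, ?_, fun h' => absurd h' h2, fun l => ?_⟩
    · have h4 := sum_filter_mod J (fun j => cardFactors (n + h j)) ρ
      rw [Nat.even_iff]
      omega
    · obtain ⟨s, b, c1, c2, c3, c4, c5⟩ := hn3 l
      refine ⟨s, b, c1, c2, c3, fun h' => absurd h' (not_or.2 ⟨h2, h3⟩), c4, ?_⟩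
      rintro (hl | hl)
      · exact c5 hl
      · exact absurd hl h3

end Pool.Agent.Results.MP_092512_nt.ParitySumsOverAllSets
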