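import Mathlib
import Pool.Agent.Lib.MP_092512_nt.FP.Top

/-!
# A proportion `4^(1-k)` of all `k`-subsets of every large admissible set are shapes of prime `k`-tuples

`k = 4`: at least `1/64 - ε` of all quadruples of every admissible set with at least `m₀(ε)` elements are shapes of
infinitely many prime quadruples.
-/

set_option autoImplicit false

open Finset

namespace Pool.Agent.Results.MP_092512_nt.PrimeShapeProportion

/-- For no prime `p` does `A` meet all classes mod `p`. -/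
def Admissible (A : Finset ℕ) : Prop := ∀ p : ℕ, p.Prime → ∃ r : ℕ, ∀ a ∈ A, ¬ a ≡ r [MOD p]

/-- The number of the integers `n` in `(X, 2X]` with `n + d` prime for all `d` in `D`. -/
def tupleCount (X : ℕ) (D : Finset ℕ) : ℕ :=
  ((Ioc X (2 * X)).filter (fun n => ∀ d ∈ D, (n + d).Prime)).card

open Classical in
theorem result (k : ℕ) (hk : 1 ≤ k) (ε : ℝ) (hε : 0 < ε) : ∃ m₀ : ℕ,
    (∀ B : ℕ, ∃ C X₀ : ℕ, ∀ X : ℕ, X₀ ≤ X → ∀ A : Finset ℕ, Admissible A → m₀ ≤ A.card →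
      (∀ a ∈ A, (a : ℝ) ≤ (Real.log X) ^ B) →
      ((1 / 4 : ℝ) ^ (k - 1) - ε) * (A.card.choose k) ≤
        (((powersetCard k A).filter
          (fun D => (X : ℝ) / (Real.log X) ^ C ≤ tupleCount X D)).card : ℝ)) ∧
    (∀ A : Finset ℕ, Admissible A → m₀ ≤ A.card →
      ((1 / 4 : ℝ) ^ (k - 1) - ε) * (A.card.choose k) ≤
        (((powersetCard k A).filter
          (fun D => {n : ℕ | ∀ d ∈ D, (n + d).Prime}.Infinite)).card : ℝ)) := by
  obtain ⟨m₀, h⟩ := Pool.Agent.Lib.MP_092512_nt.FP.top k hk ε hε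
  have h1 : ∀ B : ℕ, ∃ C X₀ : ℕ, ∀ X : ℕ, X₀ ≤ X → ∀ A : Finset ℕ, Admissible A → m₀ ≤ A.card →
      (∀ a ∈ A, (a : ℝ) ≤ (Real.log X) ^ B) →
      ((1 / 4 : ℝ) ^ (k - 1) - ε) * (A.card.choose k) ≤
        (((powersetCard k A).filter
          (fun D => (X : ℝ) / (Real.log X) ^ C ≤ tupleCount X D)).card : ℝ) := by
    intro B
    obtain ⟨C, X₀, hX⟩ := h B
    refine ⟨C, X₀, fun X hX0 A hA hc hB => ?_⟩
    have := hX X hX0 A hc hB hA
    rw [card_powersetCard] at this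
    exact this
  refine ⟨m₀, h1, fun A hA hc => ?_⟩
  obtain ⟨C, X₀, hX⟩ := h1 1
  have hfin : ∀ D : Finset ℕ, ∃ b : ℕ, ¬ {n : ℕ | ∀ d ∈ D, (n + d).Prime}.Infinite →
      ∀ n : ℕ, (∀ d ∈ D, (n + d).Prime) → n ≤ b := by
    intro D
    by_cases hD : {n : ℕ | ∀ d ∈ D, (n + d).Prime}.Infinite
    · exact ⟨0, fun h => absurd hD h⟩
    · rw [Set.not_infinite] at hD
      obtain ⟨b, hb⟩ := hD.bddAbove
      exact ⟨b, fun _ n hn => hb hn⟩
  choose b hb using hfin
  obtain ⟨X, hX1, hX2, hX3, hX4⟩ : ∃ X : ℕ, X₀ ≤ X ∧ (∀ D ∈ powersetCard k A, b D ≤ X) ∧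
      (∀ a ∈ A, (a : ℝ) ≤ (Real.log X) ^ 1) ∧ 2 ≤ X := by
    have e1 : ∀ᶠ X : ℕ in Filter.atTop, ∀ a ∈ A, (a : ℝ) ≤ (Real.log X) ^ 1 := by
      rw [Filter.eventually_all_finset]
      intro a _
      have := (Real.tendsto_log_atTop.comp tendsto_natCast_atTop_atTop).eventually_ge_atTop (a : ℝ)
      filter_upwards [this] with X hX
      simpa using hX
    have e2 : ∀ᶠ X : ℕ in Filter.atTop, ∀ D ∈ powersetCard k A, b D ≤ X := by
      rw [Filter.eventually_all_finset]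
      intro D _
      exact Filter.eventually_ge_atTop (b D)
    obtain ⟨X, hX1, hX2, hX3, hX4⟩ := ((Filter.eventually_ge_atTop X₀).and (e2.and (e1.and
      (Filter.eventually_ge_atTop 2)))).exists
    exact ⟨X, hX1, hX2, hX3, hX4⟩
  refine (hX X hX1 A hA hc hX3).trans ?_
  have hsub : (powersetCard k A).filter (fun D => (X : ℝ) / (Real.log X) ^ C ≤ tupleCount X D) ⊆
      (powersetCard k A).filter (fun D => {n : ℕ | ∀ d ∈ D, (n + d).Prime}.Infinite) := by
    intro D hD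
    rw [mem_filter] at hD ⊢
    refine ⟨hD.1, ?_⟩
    by_contra hni
    have hlog : 0 < Real.log X := Real.log_pos (by exact_mod_cast (by omega : 1 < X))
    have hX0 : (0 : ℝ) < X := by exact_mod_cast (by omega : 0 < X)
    have hpos : (0 : ℝ) < tupleCount X D := lt_of_lt_of_le (by positivity) hD.2
    have hpos' : 0 < tupleCount X D := by exact_mod_cast hpos
    rw [tupleCount, card_pos] at hpos'
    obtain ⟨n, hn⟩ := hpos'
    rw [mem_filter, mem_Ioc] at hn
    have h2 := hb D hni n hn.2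
    have h3 := hX2 D hD.1
    omega
  exact_mod_cast card_le_card hsub

end Pool.Agent.Results.MP_092512_nt.PrimeShapeProportion
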