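import Pool.Agent.Lib.MP_092512_nt.RT.FThm

/-!
# Quadruples with at most ten prime factors

For every admissible shape `{h 0, h 1, h 2, h 3}`, in particular for the shapes `{0, 2, 6, 8}` and
`{0, 4, 6, 10}` of the problem, the number of `n ≤ N` such that the four numbers `n + h i` are
squarefree, have TOGETHER at most ten prime factors, and have no prime factor `≤ N^κ`, is of the
order of magnitude `S N / (log N)^4` predicted for primes, with absolute constants, where `S`
is the Hardy-Littlewood constant of the shape.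
-/

open Finset Filter Topology

namespace Pool.Agent.Results.MP_092512_nt.TenPrimeFactors

/-- The number of residue classes modulo `p` which contain one of the shifts `h i`. -/
def nu (h : Fin 4 → ℕ) (p : ℕ) : ℕ := (univ.image (fun i => h i % p)).card

/-- The product over the primes `p ≤ z` of the factors `(1 - ν(p)/p) / (1 - 1/p)^4`. -/
noncomputable def partialSing (h : Fin 4 → ℕ) (z : ℕ) : ℝ :=
  ∏ p ∈ (Icc 1 z).filter Nat.Prime, (1 - (nu h p : ℝ) / p) / (1 - 1 / (p : ℝ)) ^ 4

open Classical in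
/-- The number of `n ≤ N` such that all four numbers `n + h i` are squarefree without prime factors
`≤ N^κ`, and the sum of their numbers of prime factors is at most ten. -/
noncomputable def count10 (κ : ℝ) (h : Fin 4 → ℕ) (N : ℕ) : ℕ :=
  ((Icc 1 N).filter (fun n =>
    (∀ i, Squarefree (n + h i) ∧ ∀ p ∈ (n + h i).primeFactors, (N : ℝ) ^ κ < p) ∧
      ∑ i, (n + h i).primeFactors.card ≤ 10)).card

theorem result : ∃ c C κ : ℝ, 0 < c ∧ 0 < C ∧ 0 < κ ∧ ∀ h : Fin 4 → ℕ, Function.Injective h →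
    (∀ p : ℕ, p.Prime → nu h p < p) →
    ∃ S : ℝ, 0 < S ∧ Tendsto (partialSing h) atTop (𝓝 S) ∧
      ∃ N₀ : ℕ, ∀ N : ℕ, N₀ ≤ N →
        c * S * (N / (Real.log N) ^ 4) ≤ count10 κ h N ∧
        count10 κ h N ≤ C * S * (N / (Real.log N) ^ 4) := by
  obtain ⟨c, C, κ, hc, hC, hκ, H⟩ := Pool.Agent.Lib.MP_092512_nt.RT.ten_sing
  refine ⟨c, C, κ, hc, hC, hκ, fun h hinj hadm => ?_⟩
  obtain ⟨S, hS, hlim, N₀, hN⟩ := H h hinj hadm
  refine ⟨S, hS, hlim, N₀, fun N hN0 => ⟨(hN N hN0).1, le_trans ?_ (hN N hN0).2⟩⟩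
  refine Nat.cast_le.2 (card_le_card fun n hn => ?_)
  rw [mem_filter] at hn ⊢
  exact ⟨hn.1, fun i => (hn.2.1 i).2⟩

end Pool.Agent.Results.MP_092512_nt.TenPrimeFactors
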